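import Pool.Agent.Q63.RZ.My2

/-!
# High moments of the zeta function next to its zeros off the critical line, its multiple zeros and
its pairs of zeros
-/

set_option autoImplicit false

open MeasureTheory Filter Topology Set

namespace Pool.Agent.Results.MP_56b8f5_nt.NearExceptionalZeros

/-- The point `1/2 + it`. -/
noncomputable def pt (t : ℝ) : ℂ := 1 / 2 + t * Complex.I

/-- The Gaussian window with centre `T` and width `U`. -/
noncomputable def w (T U t : ℝ) : ℝ := Real.exp (-((t - T) / U) ^ 2)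

/-- The `2k`-th moment of the zeta function on the critical line in the window. -/
noncomputable def J (k : ℕ) (T U : ℝ) : ℝ := ∫ t : ℝ, ‖riemannZeta (pt t)‖ ^ (2 * k) * w T U t

/-- The heights `t` next to a pair of zeros, radius `r` (for pairs at distance at most `d`): there is
a zero `ρ` at distance at most `r` from `1/2 + it` which is off the critical line or multiple, or
there are two distinct zeros `1/2 + iγ`, `1/2 + iγ'` at distance at most `d` from each other, not on
different sides of `1/2 + it`, with product of the distances to `1/2 + it` at most `r²`. -/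
def nearPairs (d r : ℝ) : Set ℝ :=
  {t | ∃ ρ : ℂ, riemannZeta ρ = 0 ∧ (ρ.re ≠ 1 / 2 ∨ deriv riemannZeta ρ = 0) ∧ ‖ρ - pt t‖ ≤ r} ∪
  {t | ∃ γ γ' : ℝ, riemannZeta (pt γ) = 0 ∧ riemannZeta (pt γ') = 0 ∧ γ ≠ γ' ∧ |γ - γ'| ≤ d ∧
    0 ≤ (γ - t) * (γ' - t) ∧ (γ - t) * (γ' - t) ≤ r ^ 2}

/-- For every `δ > 0` there is a constant `C` such that for all `r₀ > 0` and `k ≥ 1`, for all large
`T`, all windows `1 ≤ U ≤ T / log T` and all `r` in `[r₀, √3 π]`: the heights next to a pair of
zeros, radius `r / log T` (for pairs at distance at most the average gap `2 π / log T`), contribute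
at most `C ((1 + δ) |cos (√(π² + r²) / 2)|) ^ (2k)` times the `2k`-th moment. -/
theorem result (δ : ℝ) (hδ : 0 < δ) : ∃ C : ℝ, ∀ r₀ : ℝ, 0 < r₀ → ∀ k : ℕ, 1 ≤ k →
    ∃ T₀ : ℝ, ∀ T : ℝ, T₀ ≤ T → ∀ U : ℝ, 1 ≤ U → U ≤ T / Real.log T →
      ∀ r : ℝ, r₀ ≤ r → r ≤ Real.sqrt 3 * Real.pi →
      (∫ t in nearPairs (2 * Real.pi / Real.log T) (r / Real.log T),
          ‖riemannZeta (pt t)‖ ^ (2 * k) * w T U t) ≤
        C * ((1 + δ) * |Real.cos (Real.sqrt (Real.pi ^ 2 + r ^ 2) / 2)|) ^ (2 * k) * J k T U := by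
  obtain ⟨C, _, hC⟩ := Q63.RZ.main2 hδ
  refine ⟨C, fun r₀ h0 k hk => ?_⟩
  obtain ⟨T₀, hT₀⟩ := eventually_atTop.mp (hC r₀ h0 k hk)
  refine ⟨max T₀ 3, fun T hT U hU1 hU2 r hr hr3 => ?_⟩
  have hA : Q97.MM.Adm T U := ⟨(le_max_right _ _).trans hT, hU1, hU2⟩
  have key := hT₀ T ((le_max_left _ _).trans hT) U hA r hr hr3
  have e : ∀ t : ℝ, ((1 / 2 : ℝ) : ℂ) + t * Complex.I = pt t := by
    intro t; unfold pt; push_cast; ring
  have eJ : Q97.MM.JJ k T U (1 / 2) = J k T U := by
    unfold J Q97.MM.JJ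
    congr 1
    funext t
    rw [e]
    rfl
  have ew : Q97.MM.wt T U = w T U := rfl
  rw [eJ, ew] at key
  simp only [e] at key
  exact key

end Pool.Agent.Results.MP_56b8f5_nt.NearExceptionalZeros
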