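import Pool.Agent.Q255.L2.Almz
import Pool.Agent.Q129.L2.MN
import Pool.Agent.Q224.L2.ME
import Pool.Agent.Q154.L2.MW
import Pool.Agent.Q214.L2.Mq
import Pool.Agent.Q182.L2.QE
import Pool.Agent.Q151.L2.HY

/-!
# All moments of the Dirichlet polynomials of almost all quadratic characters on the critical line, over all intervals

For the Legendre symbol modulo an odd prime `p` let `Z_N(t) = ∑_{n ≤ N} (n/p) n^{-1/2-it}`. For every `k ≥ 1` and `ε > 0`, for all but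
few primes `p ≤ P`,
`∫_{T₁}^{T₂} |Z_N(t)|^{2k} dt = (T₂ - T₁) ∑_n d_{k,N}(n)²/n + O(X^ε √(1 + T₂ - T₁))`
for all `N ≤ X` and all intervals `[T₁, T₂]` in `[-X, X]`, for all `X` from `Z` to `P^(1/K)/2` at once; at most `C P Z^(-B)` primes
are excluded (`K` and `C` depend on `k`, `ε`, `B`). The main term is the one of `∑_{n ≤ N} n^{-1/2-it}`.
-/

set_option autoImplicit false

namespace Pool.Agent.Results.MP_56b8f5_nt.QuadraticCharacters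

open Finset Filter Topology MeasureTheory

/-- the quadratic symbol `(n / p)` -/
noncomputable def chi (p n : ℕ) : ℝ := (jacobiSym (n : ℤ) p : ℝ)

/-- `Z_N(t) = ∑_{n ≤ N} f(n) n^{-1/2-it}` -/
noncomputable def Z (f : ℕ → ℝ) (N : ℕ) (t : ℝ) : ℂ :=
  ∑ n ∈ Icc 1 N, (f n : ℂ) * (n : ℂ) ^ (-(1 / 2 : ℂ) - t * Complex.I)

open Classical in
/-- `d_{k,N}(n)`, the number of the `k`-tuples of numbers in `[1, N]` with the product `n` -/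
def d (k N n : ℕ) : ℕ := ((Fintype.piFinset fun _ : Fin k => Icc 1 N).filter fun a => ∏ j, a j = n).card

/-- the diagonal term `∑_n d_{k,N}(n)²/n`, the mean value of `|∑_{n ≤ N} n^{-1/2-it}|^{2k}` over all real `t` -/
noncomputable def diagonal (k N : ℕ) : ℝ := ∑ n ∈ Icc 1 (N ^ k), (d k N n : ℝ) ^ 2 / n

/-! ## The proof -/

/-- the power of two above `t` -/
theorem pow_above {t : ℝ} (ht : 1 ≤ t) : ∃ J : ℕ, t ≤ 2 ^ J ∧ (2 : ℝ) ^ J ≤ 2 * t := by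
  obtain ⟨n, h1, h2⟩ := exists_nat_pow_near ht (by norm_num : (1 : ℝ) < 2)
  refine ⟨n + 1, h2.le, ?_⟩
  rw [pow_succ]
  linarith

theorem scale_le {ε X H C : ℝ} {J : ℕ} (hε : 0 < ε) (hX : 1 ≤ X) (hJ : (2 : ℝ) ^ J ≤ 2 * X) (hC : 0 ≤ C) :
    C * (2 : ℝ) ^ (ε * J) * √H ≤ C * 2 ^ ε * X ^ ε * √H := by
  have h1 : (2 : ℝ) ^ (ε * J) ≤ 2 ^ ε * X ^ ε :=
    calc (2 : ℝ) ^ (ε * J) = ((2 : ℝ) ^ J) ^ ε := by
          rw [← Real.rpow_natCast 2 J, ← Real.rpow_mul (by norm_num)]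
          congr 1
          ring
      _ ≤ (2 * X) ^ ε := Real.rpow_le_rpow (by positivity) hJ hε.le
      _ = 2 ^ ε * X ^ ε := Real.mul_rpow (by norm_num) (by linarith)
  refine mul_le_mul_of_nonneg_right ?_ (Real.sqrt_nonneg _)
  rw [mul_assoc]
  exact mul_le_mul_of_nonneg_left h1 hC

/-- the form of `almz` for sets -/
theorem almz_ncard {Q : ℕ → ℕ → Prop} {r : ℕ} (hAlm : Pool.Agent.Q255.L2.Alm fun J m =>
    Pool.Agent.Q255.L2.Rgh (J + r) m → Q J m) {B : ℝ} (hB : 0 ≤ B) :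
    ∃ (K : ℕ) (C : ℝ), 0 ≤ C ∧ ∀ (P : ℕ) (Z : ℝ) (S : Set ℕ), 1 ≤ Z →
      (∀ p ∈ S, p ≤ P ∧ p.Prime ∧ ∃ J : ℕ, Z ≤ 2 ^ J ∧ 2 ^ (K * J) ≤ P ∧ ¬ Q J p) →
        (S.ncard : ℝ) ≤ C * P * Z ^ (-B) := by
  obtain ⟨K, C, hC0, hC⟩ := Pool.Agent.Q255.L2.almz hAlm hB
  refine ⟨K, C, hC0, fun P Z S hZ hS => ?_⟩
  have hfin : S.Finite := (Set.finite_le_nat P).subset fun p hp => (hS p hp).1
  rw [Set.ncard_eq_toFinset_card S hfin]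
  exact hC P Z _ hZ fun p hp => hS p ((Set.Finite.mem_toFinset hfin).1 hp)

theorem mq : Pool.Agent.Q255.L2.S_MQ :=
  Pool.Agent.Q214.L2.mq (Pool.Agent.Q182.L2.qe Pool.Agent.Q151.L2.hy) Pool.Agent.Q224.L2.ME.me
    (Pool.Agent.Q154.L2.mw Pool.Agent.Q129.L2.mn)

/-- **All moments of the Dirichlet polynomials of almost all quadratic characters on the critical line.**

For all `k ≥ 1`, `ε > 0` there is `C₁` such that for every `B ≥ 0` there are `K₀`, `C` such that for all `P` and `Z ≥ 1`: for all but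
at most `C P Z^(-B)` of the odd primes `p ≤ P`, all `X ≥ Z` with `(2X)^K₀ ≤ P`, all `1 ≤ N ≤ X` and all `-X ≤ T₁ ≤ T₂ ≤ X`:
`|∫_{T₁}^{T₂} |∑_{n ≤ N} (n/p) n^{-1/2-it}|^{2k} dt - (T₂ - T₁) ∑_n d_{k,N}(n)²/n| ≤ C₁ X^ε √(1 + T₂ - T₁)`. -/
theorem result :
    ∀ (k : ℕ) (ε : ℝ), 1 ≤ k → 0 < ε → ∃ C₁ : ℝ, ∀ B : ℝ, 0 ≤ B → ∃ (K₀ : ℕ) (C : ℝ),
      ∀ (P : ℕ) (Y : ℝ), 1 ≤ Y →
        ({p : ℕ | p ≤ P ∧ p.Prime ∧ p ≠ 2 ∧ ∃ (X : ℝ) (N : ℕ) (T₁ T₂ : ℝ), Y ≤ X ∧ (2 * X) ^ K₀ ≤ P ∧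
          1 ≤ N ∧ N ≤ X ∧ -X ≤ T₁ ∧ T₁ ≤ T₂ ∧ T₂ ≤ X ∧
          C₁ * X ^ ε * √(1 + (T₂ - T₁)) <
            |(∫ t in T₁..T₂, ‖Z (chi p) N t‖ ^ (2 * k)) - (T₂ - T₁) * diagonal k N|}.ncard : ℝ) ≤
          C * P * Y ^ (-B) := by
  intro k ε hk hε
  obtain ⟨C₁, hA⟩ := mq k ε hk hε
  refine ⟨max C₁ 0 * 2 ^ ε, fun B hB => ?_⟩
  obtain ⟨K₀, C, hC0, hC⟩ := almz_ncard (r := 0) hA hB
  refine ⟨K₀, C, fun P Y hY => hC P Y _ hY ?_⟩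
  rintro p ⟨hpP, hpp, -, X, N, T₁, T₂, hYX, hXP, hN, hNX, h1, h12, h2, hbad⟩
  have hX : 1 ≤ X := hY.trans hYX
  obtain ⟨J, hJ1, hJ2⟩ := pow_above hX
  refine ⟨hpP, hpp, J, hYX.trans hJ1, ?_, fun hcon => ?_⟩
  · have h3 : ((2 : ℝ) ^ J) ^ K₀ ≤ (2 * X) ^ K₀ := pow_le_pow_left₀ (by positivity) hJ2 K₀
    rw [← pow_mul, mul_comm J K₀] at h3
    exact_mod_cast h3.trans hXP
  · have h4 : (N : ℝ) ≤ 2 ^ J := hNX.trans hJ1
    refine absurd (hcon N T₁ T₂ hN (by exact_mod_cast h4) (by linarith) h12 (h2.trans hJ1)) (not_le.2 ?_)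
    refine lt_of_le_of_lt ?_ hbad
    refine le_trans ?_ (scale_le hε hX hJ2 (le_max_right C₁ 0))
    exact mul_le_mul_of_nonneg_right (mul_le_mul_of_nonneg_right (le_max_left _ _) (by positivity))
      (Real.sqrt_nonneg _)

end Pool.Agent.Results.MP_56b8f5_nt.QuadraticCharacters
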