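import Pool.Agent.Q97.RD.Rq

/-!
# The zeros of zeta repel the measure of its moments

For every real `β > 0` let `P` be the probability measure with density proportional to
`|ζ(1/2 + it)|^β exp(-((t-T)/U)²)`, `1 ≤ U ≤ T / log T` arbitrary, and let `n(t, r)` be the number of
zeros of zeta in the closed disc with centre `1/2 + it` and radius `r`, with multiplicities.

* For fixed `c > 0`, `m ≥ 1`: `P (n(t, c / log T) ≥ m) ≤ K(β, c, m) + o(1)`, where
  `K = (4(1+e)/π) c (1 + β (m + 2(1+e)c)) exp((2+e)βc) (e(1+e)c/m)^(β m)`.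
* For every `R > 0` there is `C` with `P (n(t, c / log T) ≥ m) ≤ C c (c/R)^(β m)` for all `0 < c ≤ R`
  and all `m ≥ 1` simultaneously, for large `T`. With `m = 1` the exponent of `c` is `1 + β`, which is the
  exponent of `∫_{|t-γ| ≤ x} |ζ(1/2+it)|^β dt` at a simple zero `1/2 + iγ`.
* The points within `c / log T` of the zeros carry at most `C c` of the moment even when
  `|ζ(1/2+it)|` is replaced by the maximum of `|ζ|` over the disc of radius `R / log T`.

The implied constants are uniform in the window.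
-/

set_option autoImplicit false

open MeasureTheory Filter Metric Set
open scoped ENNReal

namespace Pool.Agent.Results.MP_56b8f5_nt.ZeroRepulsion

noncomputable section

/-- the multiplicity of a zero of zeta (and `0` at all other points) -/
def mult (ρ : ℂ) : ℕ := analyticOrderNatAt riemannZeta ρ

/-- the point `1/2 + it` -/
def pt (t : ℝ) : ℂ := 1 / 2 + t * Complex.I

/-- `n(t, r)`: the number of zeros of zeta in the closed disc with centre `1/2 + it` and radius `r`,
with multiplicities -/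
def count (t r : ℝ) : ℕ := ∑ᶠ (ρ : ℂ) (_ : ρ ∈ closedBall (pt t) r), mult ρ

/-- the Gaussian window of width `U` at `T` -/
def window (T U t : ℝ) : ℝ := Real.exp (-((t - T) / U) ^ 2)

/-- `|ζ(1/2 + it)|^β` times the window -/
def dens (β T U t : ℝ) : ℝ := ‖riemannZeta (pt t)‖ ^ β * window T U t

/-- the moment -/
def moment (β T U : ℝ) : ℝ := ∫ t, dens β T U t

/-- the probability of a set under the moment measure -/
def prob (β T U : ℝ) (S : Set ℝ) : ℝ≥0∞ :=
  (∫⁻ t, S.indicator (fun t => ENNReal.ofReal (dens β T U t)) t) / ENNReal.ofReal (moment β T U)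

/-- the constant of the first part -/
def K (β c : ℝ) (m : ℕ) : ℝ :=
  4 * (1 + Real.exp 1) / Real.pi * c * (1 + β * (m + 2 * (1 + Real.exp 1) * c)) *
    Real.exp ((2 + Real.exp 1) * β * c) * (Real.exp 1 * (1 + Real.exp 1) * c / m) ^ (β * m)

theorem pt_eq : pt = Q97.RD.pp := by
  funext t
  simp [pt, Q97.RD.pp]

theorem count_eq (t r : ℝ) : count t r = Q97.RB.count (Q97.RD.pp t) r := by
  unfold count
  rw [pt_eq]
  rfl

theorem moment_eq (β T U : ℝ) : moment β T U = Q97.RB.MB β T U (1 / 2) := by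
  unfold moment Q97.RB.MB dens
  rw [pt_eq]
  rfl

theorem prob_le {β T U κ : ℝ} {S : Set ℝ} (hκ : 0 ≤ κ)
    (h : ∫⁻ t, S.indicator (fun t => ENNReal.ofReal (dens β T U t)) t ≤
      ENNReal.ofReal (κ * moment β T U)) : prob β T U S ≤ ENNReal.ofReal κ := by
  unfold prob
  rw [ENNReal.ofReal_mul hκ] at h
  exact ENNReal.div_le_of_le_mul h

theorem K_eq {β c : ℝ} (hβ : 0 < β) (hc : 0 < c) {m : ℕ} (hm : 0 < m) :
    2 * c * (c / (m / (1 + Real.exp 1))) ^ (β * m) *
      Q97.RD.KZ β c (m / (1 + Real.exp 1) + c) (1 / (β * (1 + Real.exp 1))) = K β c m := by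
  unfold Q97.RD.KZ K
  have hE := Real.exp_pos 1
  have hm' : (0 : ℝ) < m := by exact_mod_cast hm
  have h1 : 2 * (c + (m / (1 + Real.exp 1) + c) + 1 / (β * (1 + Real.exp 1))) /
      (Real.pi * Real.exp 1 * β * (1 / (β * (1 + Real.exp 1))) ^ 2) =
      2 * (1 + Real.exp 1) / Real.pi * (1 + β * (m + 2 * (1 + Real.exp 1) * c)) *
        (Real.exp 1)⁻¹ := by
    field_simp
    ring
  have h2 : β * (c + ((m / (1 + Real.exp 1) + c) + 1 / (β * (1 + Real.exp 1))) *
      (1 + Real.exp 1)) = (2 + Real.exp 1) * β * c + 1 + β * m := by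
    field_simp
    ring
  have h3 : (c / (m / (1 + Real.exp 1))) ^ (β * m) * Real.exp (β * m) =
      (Real.exp 1 * (1 + Real.exp 1) * c / m) ^ (β * m) := by
    have e1 : Real.exp (β * m) = Real.exp 1 ^ (β * m) := by
      rw [← Real.exp_mul, one_mul]


    rw [e1, ← Real.mul_rpow (by positivity) hE.le]
    congr 1
    field_simp
  rw [h1, h2, Real.exp_add, Real.exp_add, ← h3]
  field_simp
  ring

theorem K_ge_one {β c : ℝ} (hβ : 0 < β) {m : ℕ} (hm : 0 < m) (hc : m / (1 + Real.exp 1) < c) :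
    1 ≤ K β c m := by
  have hE := Real.exp_pos 1
  have hE1 : 1 ≤ Real.exp 1 := Real.one_le_exp (by norm_num)
  have hm' : (1 : ℝ) ≤ m := by exact_mod_cast hm
  have hm0 : (0 : ℝ) < m := by linarith
  have hc0 : 0 < c := lt_trans (by positivity) hc
  rw [div_lt_iff₀ (by positivity)] at hc
  have hπ := Real.pi_pos
  have h1 : 1 ≤ 4 * (1 + Real.exp 1) / Real.pi * c := by
    rw [div_mul_eq_mul_div, le_div_iff₀ hπ]
    nlinarith [Real.pi_lt_four]
  have h2 : 1 ≤ 1 + β * (m + 2 * (1 + Real.exp 1) * c) := by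
    have : 0 ≤ β * (m + 2 * (1 + Real.exp 1) * c) := by positivity
    linarith
  have h3 : 1 ≤ Real.exp ((2 + Real.exp 1) * β * c) := Real.one_le_exp (by positivity)
  have h4 : 1 ≤ (Real.exp 1 * (1 + Real.exp 1) * c / m) ^ (β * m) := by
    apply Real.one_le_rpow _ (by positivity)
    rw [le_div_iff₀ hm0]
    nlinarith
  unfold K
  exact one_le_mul_of_one_le_of_one_le (one_le_mul_of_one_le_of_one_le
    (one_le_mul_of_one_le_of_one_le h1 h2) h3) h4

theorem K_nonneg {β c : ℝ} (hβ : 0 < β) (hc : 0 < c) (m : ℕ) : 0 ≤ K β c m := by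
  have hE := Real.exp_pos 1
  have hπ := Real.pi_pos
  unfold K
  positivity

theorem prob_le_one {β T U : ℝ} (hi : Integrable (dens β T U))
    (S : Set ℝ) : prob β T U S ≤ 1 := by
  unfold prob
  apply ENNReal.div_le_of_le_mul
  rw [one_mul]
  unfold moment
  rw [ofReal_integral_eq_lintegral_ofReal hi (Eventually.of_forall fun t => by
    unfold dens window
    positivity)]
  exact lintegral_mono fun t => indicator_le_self' (fun _ _ => zero_le) t

theorem result (β : ℝ) (hβ : 0 < β) :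
    (∀ c : ℝ, 0 < c → ∀ m : ℕ, 0 < m → ∀ ε : ℝ, 0 < ε →
      ∀ᶠ T : ℝ in atTop, ∀ U : ℝ, 1 ≤ U → U ≤ T / Real.log T →
        prob β T U {t | m ≤ count t (c / Real.log T)} ≤ ENNReal.ofReal (K β c m + ε)) ∧
    (∀ R : ℝ, 0 < R → ∃ C : ℝ, 0 < C ∧
      ∀ᶠ T : ℝ in atTop, ∀ U : ℝ, 1 ≤ U → U ≤ T / Real.log T →
        ∀ c : ℝ, 0 < c → c ≤ R → ∀ m : ℕ, 0 < m →
          prob β T U {t | m ≤ count t (c / Real.log T)} ≤
            ENNReal.ofReal (C * c * (c / R) ^ (β * m))) ∧
    (∀ R : ℝ, 0 < R → ∃ C : ℝ, 0 < C ∧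
      ∀ᶠ T : ℝ in atTop, ∀ U : ℝ, 1 ≤ U → U ≤ T / Real.log T →
        ∀ z : ℝ → ℂ, (∀ t, ‖z t - pt t‖ ≤ R / Real.log T) → ∀ c : ℝ, 0 < c → c ≤ R →
          ∫⁻ t : ℝ, {t : ℝ | ∃ ρ, riemannZeta ρ = 0 ∧ ‖ρ - pt t‖ ≤ c / Real.log T}.indicator
            (fun t => ENNReal.ofReal (‖riemannZeta (z t)‖ ^ β * window T U (z t).im)) t ≤
          ENNReal.ofReal (C * c * moment β T U)) ∧
    (∀ᶠ T : ℝ in atTop, ∀ U : ℝ, 1 ≤ U → U ≤ T / Real.log T →
      Integrable (dens β T U) ∧ 0 < moment β T U) := by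
  have hE := Real.exp_pos 1
  have hpos : ∀ᶠ T : ℝ in atTop, ∀ U : ℝ, 1 ≤ U → U ≤ T / Real.log T →
      Integrable (dens β T U) ∧ 0 < moment β T U := by
    filter_upwards [Q97.RB.tilted hβ one_pos one_pos, eventually_ge_atTop 3] with T h1 hT U hU1 hU2
    have h : Q97.MM.Adm T U := ⟨hT, hU1, hU2⟩
    have hT0 : 0 < T := by linarith
    constructor
    · have h2 := Q97.RB.MB_integrable hβ (T := T) (U := U) (x := 1 / 2) (by linarith) hT0.le
        (hU2.trans (div_le_self hT0.le h.log)) (by norm_num) (by norm_num)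
      unfold dens
      rw [pt_eq]
      exact h2
    · rw [moment_eq]
      exact (h1 U h).1
  refine ⟨fun c hc m hm ε hε => ?_, fun R hR => ?_, fun R hR => ?_, hpos⟩
  · have hm0 : (0 : ℝ) < m := by exact_mod_cast hm
    rcases lt_or_ge ((m : ℝ) / (1 + Real.exp 1)) c with hcm | hcm
    · filter_upwards [hpos] with T h1 U hU1 hU2
      obtain ⟨h2, _⟩ := h1 U hU1 hU2
      refine (prob_le_one h2 _).trans ?_
      rw [← ENNReal.ofReal_one]
      apply ENNReal.ofReal_le_ofReal
      have := K_ge_one hβ hm hcm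
      linarith
    · have hk : 0 < 2 * c * (c / (m / (1 + Real.exp 1))) ^ (β * m) := by positivity
      filter_upwards [Q97.RD.repulsion hβ hc hcm (R' := 1 / (β * (1 + Real.exp 1)))
        (by positivity) hm (ε := (2 * c * (c / (m / (1 + Real.exp 1))) ^ (β * m))⁻¹ * ε)
        (by positivity), eventually_ge_atTop 3] with T h1 hT U hU1 hU2
      have h2 := h1 U ⟨hT, hU1, hU2⟩
      refine prob_le (add_nonneg (K_nonneg hβ hc m) hε.le) ?_
      rw [mul_add, K_eq hβ hc hm, mul_inv_cancel_left₀ hk.ne'] at h2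
      rw [moment_eq]
      refine le_trans (le_of_eq ?_) h2
      simp only [count_eq]
      unfold dens
      rw [pt_eq]
      rfl
  · set C := 2 * (Q97.RD.KZ β R (R + R) 1 + 1) with hC
    have hC0 : 0 < C := by
      have : 0 ≤ Q97.RD.KZ β R (R + R) 1 := by
        unfold Q97.RD.KZ
        have hπ := Real.pi_pos
        positivity
      positivity
    refine ⟨C, hC0, ?_⟩
    filter_upwards [Q97.RD.repulsion_unif hβ hR one_pos one_pos, eventually_ge_atTop 3]
      with T h1 hT U hU1 hU2 c hc hcR m hm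
    have h2 := h1 U ⟨hT, hU1, hU2⟩ c hc hcR m hm
    refine prob_le (by positivity) ?_
    rw [moment_eq]
    simp only [count_eq]
    unfold dens
    rw [pt_eq]
    refine h2.trans (le_of_eq ?_)
    congr 1
    rw [hC]
    ring
  · obtain ⟨C, hC0, h⟩ := Q97.RD.near_zeta hβ hR
    refine ⟨C, hC0, ?_⟩
    filter_upwards [h, eventually_ge_atTop 3] with T h1 hT U hU1 hU2 z hz c hc hcR
    rw [moment_eq, pt_eq] at *
    exact h1 U ⟨hT, hU1, hU2⟩ c hc hcR z hz

end

end Pool.Agent.Results.MP_56b8f5_nt.ZeroRepulsion
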