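import Pool.Agent.Q97.RF.Zk

/-!
# Zeros of the derivatives of zeta, and of `P(D / log T) ζ`, under the moment measure

Let `P` be a nonzero complex polynomial without two (possibly equal) roots `μ`, `ν` such that
`μ + conj ν = -1`; for example `P = X^j`, `j ≥ 1`, or `P = 1 + λ X` with `Re (1/λ) ≠ 1/2`. Let
`g = P(D/log T) ζ = ∑ c_k ζ^(k) / (log T)^k`. For every real `β > 0`, uniformly in the Gaussian
windows `w(t) = exp(-((t-T)/U)²)`, `1 ≤ U ≤ T / log T`, and with `M = ∫ |ζ(1/2+it)|^β w(t) dt`: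

* the number of zeros of `g` within `R / log T` of `1/2+it` has all its exponential moments
  bounded with respect to the measure `|ζ(1/2+it)|^β w(t) dt / M`;
* the sum of `|ζ(z_ρ)|^β w(Im z_ρ)` over the zeros `ρ` of `g` with `|Re ρ - 1/2| ≤ A / log T` and
  `|Im ρ - T| ≤ U log T / 16`, with multiplicities and with arbitrary `z_ρ`,
  `|z_ρ - ρ| ≤ a / log T`, is at most `C (log T) M`.

The condition on `P` excludes `P = X + 1/2`, for which `g` is essentially Hardy's `Z'`. The proof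
shows that `|ζ| ≤ C max |g|` on each disc of radius `a / log T` around a point of the line: the
functional equation turns a bound for `P(D)f` into one for `P*(D)f`, `f` the rescaled zeta
function, `P*(x) = conj P(-1 - conj x)`, and `P`, `P*` are coprime.
-/

set_option autoImplicit false

open MeasureTheory Filter Metric Set
open scoped ENNReal ComplexConjugate

namespace Pool.Agent.Results.MP_56b8f5_nt.ZerosOfDerivatives

noncomputable section

/-- the function `∑ c_k ζ^(k)(s) / L^k`, where the `c_k` are the coefficients of `P` -/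
def diffZeta (P : Polynomial ℂ) (L : ℝ) (s : ℂ) : ℂ :=
  ∑ k ∈ Finset.range (P.natDegree + 1), P.coeff k * iteratedDeriv k riemannZeta s / (L : ℂ) ^ k

/-- the number of zeros of `f` in a closed disc, with multiplicities -/
def zeroCount (f : ℂ → ℂ) (c : ℂ) (r : ℝ) : ℕ :=
  ∑ᶠ (ρ : ℂ) (_ : ρ ∈ closedBall c r), analyticOrderNatAt f ρ

/-- the Gaussian window of width `U` at `T` -/
def window (T U t : ℝ) : ℝ := Real.exp (-((t - T) / U) ^ 2)

/-- the moment of order `β` in the window -/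
def moment (β T U : ℝ) : ℝ := ∫ t : ℝ, ‖riemannZeta (1 / 2 + t * Complex.I)‖ ^ β * window T U t

/-- the zeros of `diffZeta P (log T)` at distance at most `A / log T` from the critical line and
with ordinates at distance at most `U log T / 16` from `T` -/
def zeros (P : Polynomial ℂ) (A T U : ℝ) : Set ℂ :=
  {ρ | diffZeta P (Real.log T) ρ = 0 ∧ |ρ.re - 1 / 2| ≤ A / Real.log T ∧
    |ρ.im - T| ≤ U * Real.log T / 16}

theorem moment_eq (β T U : ℝ) : moment β T U = Q97.RB.MB β T U (1 / 2) := by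
  unfold moment Q97.RB.MB
  have : ∀ t : ℝ, (1 / 2 + t * Complex.I : ℂ) = ((1 / 2 : ℝ) : ℂ) + t * Complex.I := by
    intro t
    norm_num
  simp only [this]
  rfl

theorem diffZeta_eq (P : Polynomial ℂ) (L : ℝ) : diffZeta P L = Q97.RF.dz P L := by
  funext s
  unfold diffZeta Q97.RF.dz
  rw [Polynomial.sum_over_range]
  intro k
  rw [zero_mul, zero_div]

theorem pt_eq (t : ℝ) : (1 / 2 + t * Complex.I : ℂ) = Q97.RD.pp t := by
  unfold Q97.RD.pp
  norm_num

theorem result (P : Polynomial ℂ) (hP0 : P ≠ 0)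
    (hP : ∀ μ ν : ℂ, P.eval μ = 0 → P.eval ν = 0 → μ + conj ν ≠ -1) (β : ℝ) (hβ : 0 < β) :
    (∀ R : ℝ, 0 < R → ∀ lam : ℝ, 0 ≤ lam → ∃ C : ℝ, 0 < C ∧
      ∀ᶠ T : ℝ in atTop, ∀ U : ℝ, 1 ≤ U → U ≤ T / Real.log T →
        (∀ t : ℝ, |t - T| ≤ T / 4 →
          {ρ ∈ closedBall (1 / 2 + t * Complex.I : ℂ) (R / Real.log T) |
            diffZeta P (Real.log T) ρ = 0}.Finite) ∧
        ∫⁻ t in {t : ℝ | |t - T| ≤ T / 4},
          ENNReal.ofReal (Real.exp (lam * zeroCount (diffZeta P (Real.log T))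
            (1 / 2 + t * Complex.I) (R / Real.log T)) *
            (‖riemannZeta (1 / 2 + t * Complex.I)‖ ^ β * window T U t)) ≤
          ENNReal.ofReal (C * moment β T U)) ∧
    (∀ A : ℝ, 0 ≤ A → ∀ a : ℝ, 0 ≤ a → ∃ C : ℝ, 0 < C ∧
      ∀ᶠ T : ℝ in atTop, ∀ U : ℝ, 1 ≤ U → U ≤ T / Real.log T → ∀ z : ℂ → ℂ,
        (∀ ρ ∈ zeros P A T U, ‖z ρ - ρ‖ ≤ a / Real.log T) →
          ∑' ρ : zeros P A T U, (analyticOrderNatAt (diffZeta P (Real.log T)) ρ : ℝ≥0∞) *
            ENNReal.ofReal (‖riemannZeta (z ρ)‖ ^ β * window T U (z ρ).im) ≤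
          ENNReal.ofReal (C * Real.log T * moment β T U)) := by
  refine ⟨fun R hR lam hlam => ?_, fun A hA a ha => ?_⟩
  · obtain ⟨C, hC, h⟩ := Q97.RF.exp_count hP0 hP hβ hlam hR
    refine ⟨C, hC, ?_⟩
    filter_upwards [h, eventually_ge_atTop 3, Q97.RF.zero_finite hP0 hP hR] with T h1 hT h2 U hU1 hU2
    rw [moment_eq, diffZeta_eq]
    have h3 : ∀ t : ℝ, |t - T| ≤ T / 4 ↔ |t - T| ≤ 1 / 4 * T := by
      intro t
      rw [div_eq_inv_mul]
      norm_num
    refine ⟨fun t ht => ?_, ?_⟩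
    · rw [pt_eq]
      exact h2 t ((h3 t).mp ht)
    · simp only [pt_eq, h3]
      exact h1 U ⟨hT, hU1, hU2⟩
  · obtain ⟨C, hC, h⟩ := Q97.RF.sum_zeros hP0 hP hβ hA ha
    refine ⟨C, hC, ?_⟩
    filter_upwards [h, eventually_ge_atTop 3] with T h1 hT U hU1 hU2 z hz
    rw [moment_eq, diffZeta_eq]
    refine h1 U ⟨hT, hU1, hU2⟩ (zeros P A T U) z fun ρ hρ => ⟨hρ.2.1, ?_, hz ρ hρ⟩
    have := hρ.2.2
    linarith

end

end Pool.Agent.Results.MP_56b8f5_nt.ZerosOfDerivatives
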